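import Pool.Agent.H369.CB.Stm

/-!
# The configuration of the nodes on the Tate curve, and the emptiness on the nodal curve
-/

set_option autoImplicit false

namespace Pool.Agent.H369.CFG

open TensorProduct Pool.Agent.H369.TH Pool.Agent.H369.CB

/-- the ordered group of the exponents with the positions of the points; `r` is the real part -/
structure Gam (Γ : Type) [AddCommGroup Γ] [LinearOrder Γ] [IsOrderedAddMonoid Γ] (τ : ℝ) where
  /-- the period -/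
  P : Γ
  /-- half of the period -/
  hf : Γ
  /-- the points `q i` are near `x0` -/
  x0 : Γ
  /-- auxiliary -/
  x1 : Γ
  /-- the points `p i` -/
  ta : Γ
  /-- the point at infinity -/
  oo : Γ
  /-- real part -/
  r : Γ →+ ℝ
  mono : Monotone r
  countable : Countable Γ
  big : Big P
  half : hf + hf = P
  rP : r P = 1
  r0 : r x0 = 0
  r1 : r x1 = τ
  rt : r ta = τ
  lt1 : x0 < ta
  lt2 : ta < x0 + P
  lt3 : ta < x1
  lt4 : x1 < ta + P
  ne01 : ∀ k : ℤ, x1 ≠ x0 + k • P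
  ne0t : ∀ k : ℤ, ta ≠ x0 + k • P
  ne1t : ∀ k : ℤ, ta ≠ x1 + k • P
  ne0o : ∀ k : ℤ, x0 ≠ oo + k • P
  neto : ∀ k : ℤ, ta ≠ oo + k • P
  irr : ∀ n : ℕ, 0 < n → ∀ z : ℤ, n * r oo ≠ z

section
variable {Γ K : Type} [AddCommGroup Γ] [LinearOrder Γ] [IsOrderedAddMonoid Γ] [Field K]
variable {τ : ℝ}

/-- the point at infinity -/
def Gam.o (A : Gam Γ τ) : Pt Γ K := (Multiplicative.ofAdd A.oo, 1)

/-- the limit of the points `q i` -/
def Gam.x (A : Gam Γ τ) : Pt Γ K := (Multiplicative.ofAdd A.x0, 1)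

/-- auxiliary point -/
def Gam.z (A : Gam Γ τ) : Pt Γ K := (Multiplicative.ofAdd A.x1, 1)

/-- the points `p i` -/
def Gam.p (A : Gam Γ τ) {m : ℕ} (ξ : Fin m → Kˣ) (i : Fin m) : Pt Γ K :=
  (Multiplicative.ofAdd A.ta, ξ i)

/-- auxiliary points, `y1 * y2 = x * z` -/
def Gam.y1 (A : Gam Γ τ) : Pt Γ K := ng A.x

/-- auxiliary points, `y1 * y2 = x * z` -/
def Gam.y2 (A : Gam Γ τ) : Pt Γ K := ng A.z

/-- the positions `h i` -/
noncomputable def Gam.h (A : Gam Γ τ) {m : ℕ} (ξ : Fin m → Kˣ) (i : Fin m) : HG Γ K :=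
  PowerSeries.coeff 0 (T (A.p ξ i) (theta A.P A.y1 * theta A.P A.y2)) /
    (PowerSeries.coeff 0 (T (A.p ξ i) (theta A.P A.x)) *
      PowerSeries.coeff 0 (T (A.p ξ i) (theta A.P A.z)))

/-- the directions `ζ i = h i + ε y i` -/
noncomputable def Gam.ze (A : Gam Γ τ) {m : ℕ} (ξ : Fin m → Kˣ) (y : Fin m → K) (i : Fin m) :
    PowerSeries (HG Γ K) :=
  PowerSeries.C (A.h ξ i) + PowerSeries.X * PowerSeries.C (HahnSeries.C (y i))

/-- the conditions on the coefficients `G a b` of `δ^a ε^b` of a section -/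
structure Cond (A : Gam Γ τ) {m : ℕ} (ξ : Fin m → Kˣ) (y : Fin m → K) (n γ : ℕ) (κ : HG Γ K)
    (G : ℕ → ℕ → Ent Γ K ⊗[HG Γ K] Ent Γ K) : Prop where
  mem : ∀ a b, InVV A.P n (ng A.o ^ n) (G a b)
  sym : ∀ a b, TensorProduct.comm (HG Γ K) (Ent Γ K) (Ent Γ K) (G a b) = κ • G a b
  dia : ∀ a b, ∀ l < γ, dv l (G a b) = 0
  nod : ∀ (i : Fin m) (a' b' N : ℕ), a' + b' < γ →
    ∑ l ∈ Finset.range (N + 1), (l.choose b' : PowerSeries (HG Γ K)) * A.ze ξ y i ^ (l - b') *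
      PowerSeries.mk (fun b => tt (A.p ξ i) A.x a' l (G (N - l) b)) = 0

end

/-- **CFG1**.  `Γ` is the subgroup of `ℝ ×ₗ ℝ` generated by the elements below (countable:
`AddSubgroup.closure` of a finite set), `P = (1, 0)`, `hf = (1/2, 0)`, `x0 = (0, -1)`, `ta = (τ, 0)`,
`x1 = (τ, 1)`, `oo = (α, 0)`, `r` the first coordinate; `α` is irrational and `α - τ` is not an integer
(`α = √2` or `α = √2/2`).  `Big P`: `(m (m-1)/2, 0) + m s ≤ a` bounds `m`.  (Any other `Γ` is fine.) -/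
def S_Gam : Prop := ∀ (τ : ℝ) (_ : 0 ≤ τ) (_ : τ < 1), ∃ (Γ : Type) (_ : AddCommGroup Γ)
  (_ : LinearOrder Γ) (_ : IsOrderedAddMonoid Γ), Nonempty (Gam Γ τ)

/-- **CFG2** (cardinality) -/
def S_card : Prop := ∀ (Γ K : Type) [AddCommGroup Γ] [LinearOrder Γ] [IsOrderedAddMonoid Γ] [Field K]
  [Countable Γ] (_ : Cardinal.mk K ≤ Cardinal.continuum), Cardinal.mk (AlgebraicClosure (FractionRing
    (PowerSeries (PowerSeries (HG Γ K))))) ≤ Cardinal.continuum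

/-- **CFG3** (`LaurentSeries F` embeds in `ℂ` algebraically; compare the library file `P17.lean`) -/
def S_alg : Prop := ∀ (F : Type) [Field F] [CharZero F] (_ : Cardinal.mk F ≤ Cardinal.continuum),
  ∃ _ : Algebra (LaurentSeries F) ℂ, Algebra.IsAlgebraic (LaurentSeries F) ℂ

/-- **CFG4** (emptiness on the nodal elliptic curve).  Suppose that `G a b ≠ 0` for some `a, b` and let
`P = A.P`, `c = ng A.o ^ n`, `x = A.x`, `p = A.p ξ`, `ζ = A.ze ξ y`.  `S_delta` gives `2 γ ≤ n` and `Φ`; put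
`N = n - γ`, `J = n - 2 γ` (so `N = J + γ`), `C₀ = c * ng x ^ (-γ)`.  `S_eps` with `x0 = x`, `x1 = A.z`, `y1 = A.y1`,
`y2 = A.y2` and `HahnSeries.C (y i)` gives `A' k`, `S_tau` gives `f ≠ 0`.  Apply the real part `r`
to the inequalities of `S_tau`: `r C₀.v = n r(oo)` (the real part of `x0` is zero),
`L = n r(oo) - N τ`, and `f` satisfies the hypotheses of `Emp`: if `N = √g γ` then `√g` is rational,
hence an integer, so `τ = fract (2 √g) = 0` and `L = n r(oo)` is not an integer as `n > 0`.  So `f = 0`,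
a contradiction.  The conditions `T (p i) (theta P a) 0 ≠ 0` etc. follow from `S_theta` and `ne..`
(`T (A.z) (theta y1 * theta y2) 0 ≠ 0`: `A.z ≠ y1 * qq P ^ k` by `ne01`, `A.z ≠ ng A.z * qq P ^ k`
as `1 ≠ -1` in `K`; the second components are compared). -/
def S_E : Prop := ∀ (Γ K : Type) [AddCommGroup Γ] [LinearOrder Γ] [IsOrderedAddMonoid Γ] [Field K]
  [CharZero K] (g : ℕ) (_ : 4 ≤ g) (A : Gam Γ (Int.fract (2 * √g))) (ξ : Fin (g - 1) → Kˣ)
  (y : Fin (g - 1) → K) (_ : Emp K g ξ y) (n γ : ℕ) (_ : 0 < γ) (_ : (n : ℝ) ≤ (1 + √g) * γ)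
  (κ : HG Γ K) (_ : κ * κ = 1) (G : ℕ → ℕ → Ent Γ K ⊗[HG Γ K] Ent Γ K) (_ : Cond A ξ y n γ κ G),
  ∀ a b, G a b = 0

end Pool.Agent.H369.CFG
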